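import Pool.Agent.H68.Gm3

set_option autoImplicit false

namespace Pool.Agent.Results.MP_b48dd4_gt.DegreeThreeFour

open Pool.Agent.H68.Gn

/-- Gromov's bound for planar geodesic nets whose balanced vertices have degree 3 or 4; it depends
on the number of unbalanced vertices only. -/
theorem result :
    ∃ F : ℕ → ℕ, ∀ (V U : Finset ℂ) (G : SimpleGraph ℂ),
      (∀ a b : ℂ, G.Adj a b → a ∈ V ∧ b ∈ V) →
      (∀ a b v : ℂ, G.Adj a b → v ∈ V → v ∈ segment ℝ a b → v = a ∨ v = b) →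
      U ⊆ V →
      (∀ v ∈ V, v ∉ U → ((G.neighborSet v).ncard = 3 ∨ (G.neighborSet v).ncard = 4) ∧
        (∑ᶠ w ∈ G.neighborSet v, (w - v) / ((‖w - v‖ : ℝ) : ℂ)) = 0) →
      Set.ncard {v : ℂ | v ∈ V ∧ v ∉ U} ≤ F U.card := by
  classical
  refine ⟨fun n => n * 64 ^ n * (n * 64 ^ n * 2) +
    (n * 64 ^ n + n * 64 ^ n * (n * 64 ^ n * 2) * 3) * (n * 64 ^ n + n * 64 ^ n * (n * 64 ^ n * 2) * 3),
    fun V U G h1 h2 hU h3 => ?_⟩
  have a := dU_card h1 h2 h3 hU
  have b := (V3_card h1 h2 h3).trans (Nat.mul_le_mul a (Nat.mul_le_mul_right 2 a))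
  have c := (dE_card (U := U) h1).trans (Nat.add_le_add a (Nat.mul_le_mul_right 3 b))
  have d := (V4_card h1 h2 h3).trans (Nat.mul_le_mul c c)
  refine le_trans ?_ ((Finset.card_union_le _ _).trans (Nat.add_le_add b d))
  rw [← Set.ncard_coe_finset]
  refine Set.ncard_le_ncard (fun v hv => ?_) (Finset.finite_toSet _)
  simp only [V3, Finset.coe_union, Finset.coe_filter, Set.mem_union, Set.mem_setOf_eq]
  exact (h3 v hv.1 hv.2).1.imp (fun h => ⟨hv.1, hv.2, h⟩) fun h => ⟨hv.1, hv.2, h⟩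

end Pool.Agent.Results.MP_b48dd4_gt.DegreeThreeFour
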