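import Pool.Agent.H68.Gq7

set_option autoImplicit false

namespace Pool.Agent.Results.MP_b48dd4_gt.NeedsImbalance

open Pool.Agent.H68.Gn

/-- Unit-weight planar geodesic nets with exactly four unbalanced vertices, total imbalance at most
`170 (N + 1)` and at least `N` balanced vertices. -/
theorem result :
    ∃ U : Finset ℂ, U.card = 4 ∧ ∀ N : ℕ, ∃ (V : Finset ℂ) (G : SimpleGraph ℂ),
        (∀ a b : ℂ, G.Adj a b → a ∈ V ∧ b ∈ V) ∧
        (∀ a b c d : ℂ, G.Adj a b → G.Adj c d → ¬ ((a = c ∧ b = d) ∨ (a = d ∧ b = c)) →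
          ∀ x ∈ segment ℝ a b ∩ segment ℝ c d, (x = a ∨ x = b) ∧ (x = c ∨ x = d)) ∧
        (∀ a b v : ℂ, G.Adj a b → v ∈ V → v ∈ segment ℝ a b → v = a ∨ v = b) ∧
        U ⊆ V ∧
        (∀ v ∈ V, (G.neighborSet v).Nonempty) ∧
        (∀ v ∈ V, v ∈ U ↔ (∑ᶠ w ∈ G.neighborSet v, (w - v) / ((‖w - v‖ : ℝ) : ℂ)) ≠ 0) ∧
        (∀ v ∈ V, v ∉ U → 3 ≤ (G.neighborSet v).ncard) ∧
        (∑ v ∈ U, ‖∑ᶠ w ∈ G.neighborSet v, (w - v) / ((‖w - v‖ : ℝ) : ℂ)‖ ≤ 170 * (N + 1)) ∧
        N ≤ Set.ncard {v : ℂ | v ∈ V ∧ v ∉ U} := by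
  classical
  obtain ⟨τ, h⟩ := cfg
  have mU : ∀ v : ℂ, v ∈ ({(a0 : ℂ), -(a0 : ℂ), Bt τ, Dt τ} : Finset ℂ) ↔ IsA τ v := fun v => by
    simp [IsA]
  have s2 : ∀ k, sg (2 * k + 2) = 1 := fun k => by
    rw [sg_succ, sg_succ, sg, pow_mul]; simp
  have a1 := ab.1
  have b1 := bb.1
  have cU : ({(a0 : ℂ), -(a0 : ℂ), Bt τ, Dt τ} : Finset ℂ).card = 4 := ?_
  swap
  · rw [Finset.card_insert_of_notMem, Finset.card_insert_of_notMem, Finset.card_pair]
    · intro e; have := congrArg Complex.im e; simp [Bt, Dt] at this; linarith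
    · simp only [Finset.mem_insert, Finset.mem_singleton]
      rintro (e | e) <;> have := congrArg Complex.im e <;> simp [Bt, Dt] at this <;> linarith
    · simp only [Finset.mem_insert, Finset.mem_singleton]
      rintro (e | e | e)
      · have := congrArg Complex.re e; simp at this; linarith
      all_goals (have := congrArg Complex.im e; simp [Bt, Dt] at this; linarith)
  refine ⟨_, cU, fun N => ?_⟩
  obtain ⟨p, z1, z2, C⟩ := h (2 * N + 2) (by omega) (s2 N)
  obtain ⟨V, G, c1, c2, c3, c4, c5, c6, c7, c8, c9⟩ := netQ2 C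
  refine ⟨V, G, c1, c3, c4, fun v hv => c5 v ((mU v).1 hv), fun v hv => ?_,
    fun v hv => ⟨fun h => (c9 v ((mU v).1 h)).1, fun h => by
      by_contra hU; exact h (c7 v hv fun e => hU ((mU v).2 e)).2⟩,
    fun v hv hU => (c7 v hv fun e => hU ((mU v).2 e)).1, ?_, ?_⟩
  · rw [Set.nonempty_iff_ne_empty]
    intro e
    by_cases hA : IsA τ v
    · exact (c9 v hA).1 (by rw [e]; simp)
    · have := (c7 v hv hA).1
      rw [e] at this; simp at this
  · refine (Finset.sum_le_card_nsmul _ _ _ fun v hv => (c9 v ((mU v).1 hv)).2).trans ?_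
    rw [cU, nsmul_eq_mul]
    push_cast
    linarith [(Nat.cast_nonneg N : (0 : ℝ) ≤ N)]
  have hi : Set.InjOn (fun k => qq p (2 * k + 2)) (Finset.range N : Set ℕ) := by
    intro i hi j hj e
    simp only [Finset.coe_range, Set.mem_Iio] at hi hj
    by_contra hij
    have s := stq C (2 * i + 2) (2 * j + 2) (by omega) (by omega) (by omega) (by rw [s2, s2])
    have e' : (p (2 * i + 2)).im = (p (2 * j + 2)).im := by
      have := congrArg Complex.im e
      exact this
    rw [Complex.sub_im, e', sub_self, abs_zero, zero_div] at s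
    exact absurd s (not_lt.2 (abs_nonneg _))
  refine le_trans (b := ((fun k => qq p (2 * k + 2)) '' (Finset.range N : Set ℕ)).ncard)
    (by rw [hi.ncard_image, Set.ncard_coe_finset, Finset.card_range])
    (Set.ncard_le_ncard ?_ (V.finite_toSet.subset fun v hv => hv.1))
  rintro _ ⟨k, hk, rfl⟩
  simp only [Finset.coe_range, Set.mem_Iio] at hk
  exact ⟨c8 (2 * k + 1) (by omega), fun hU => notA τ _ (inn C _).1 ((mU _).1 hU)⟩

end Pool.Agent.Results.MP_b48dd4_gt.NeedsImbalance
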